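import Mathlib

/-!
# Finite trees inside thin covers of a continuum, and calibrations of finite trees

`NetOn A ℓ`: there is a finite rooted tree in the metric space `X`, given by a parent function on
`ℕ`, all of whose edges have total length at most `ℓ` and which has every point of `A` as a node.
-/

set_option autoImplicit false

open scoped ENNReal NNReal
open MeasureTheory

namespace Pool.Agent.Lib.H81

/-- There is a finite tree with nodes `z 0, …, z m`, the node `j ≥ 1` being joined to the node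
`par j < j`, of total length at most `ℓ`, such that every point of `A` is a node. -/
def NetOn {X : Type*} [PseudoMetricSpace X] (A : Set X) (ℓ : ℝ) : Prop :=
  ∃ (m : ℕ) (z : ℕ → X) (par : ℕ → ℕ), par 0 = 0 ∧ (∀ j, 1 ≤ j → par j < j) ∧
    (∀ a ∈ A, ∃ j ≤ m, z j = a) ∧ ∑ j ∈ Finset.Icc 1 m, dist (z j) (z (par j)) ≤ ℓ

section NetOn

variable {X : Type*} [PseudoMetricSpace X]

lemma NetOn.single (x : X) : NetOn {x} 0 := by
  refine ⟨0, fun _ => x, fun _ => 0, rfl, fun j hj => Nat.lt_of_lt_of_le Nat.zero_lt_one hj, ?_, by simp⟩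
  intro a ha
  exact ⟨0, le_rfl, (Set.mem_singleton_iff.1 ha).symm⟩

lemma NetOn.mono {A B : Set X} {ℓ ℓ' : ℝ} (h : NetOn A ℓ) (hBA : B ⊆ A) (hl : ℓ ≤ ℓ') :
    NetOn B ℓ' := by
  obtain ⟨m, z, par, h0, hp, hA, hs⟩ := h
  exact ⟨m, z, par, h0, hp, fun a ha => hA a (hBA ha), hs.trans hl⟩

lemma NetOn.insert {A : Set X} {ℓ : ℝ} (h : NetOn A ℓ) {a : X} (ha : a ∈ A) (x : X) :
    NetOn (insert x A) (ℓ + dist x a) := by
  classical
  obtain ⟨m, z, par, h0, hp, hA, hs⟩ := h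
  obtain ⟨i, him, hia⟩ := hA a ha
  refine ⟨m + 1, Function.update z (m + 1) x, Function.update par (m + 1) i, ?_, ?_, ?_, ?_⟩
  · rw [Function.update_of_ne (by omega)]; exact h0
  · intro j hj
    by_cases hjm : j = m + 1
    · subst hjm; rw [Function.update_self]; omega
    · rw [Function.update_of_ne hjm]; exact hp j hj
  · intro b hb
    rcases Set.mem_insert_iff.1 hb with rfl | hb
    · exact ⟨m + 1, le_rfl, Function.update_self ..⟩
    · obtain ⟨j, hj, hjb⟩ := hA b hb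
      exact ⟨j, by omega, by rw [Function.update_of_ne (by omega)]; exact hjb⟩
  · rw [← Finset.insert_Icc_right_eq_Icc_add_one (by omega), Finset.sum_insert (by simp)]
    have h1 : ∑ j ∈ Finset.Icc 1 m, dist (Function.update z (m + 1) x j)
        (Function.update z (m + 1) x (Function.update par (m + 1) i j)) =
        ∑ j ∈ Finset.Icc 1 m, dist (z j) (z (par j)) := by
      refine Finset.sum_congr rfl fun j hj => ?_
      rw [Finset.mem_Icc] at hj
      have := hp j hj.1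
      rw [Function.update_of_ne (by omega), Function.update_of_ne (f := par) (by omega),
        Function.update_of_ne (by omega)]
    rw [h1, Function.update_self, Function.update_self, Function.update_of_ne (by omega), hia]
    linarith

end NetOn

/-! ### Thin open covers of a compact set of finite length -/

theorem exists_open_cover {X : Type*} [MetricSpace X] [MeasurableSpace X] [BorelSpace X]
    {K : Set X} (hK : IsCompact K) {L δ : ℝ} (hL : μH[1] K < ENNReal.ofReal L) (hδ : 0 < δ) :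
    ∃ (I : Finset ℕ) (U : ℕ → Set X) (d : ℕ → ℝ), (∀ i, IsOpen (U i)) ∧ K ⊆ ⋃ i ∈ I, U i ∧
      (∀ i ∈ I, (K ∩ U i).Nonempty) ∧ (∀ i, ∀ a ∈ U i, ∀ b ∈ U i, dist a b ≤ d i) ∧
      (∀ i, d i ≤ δ) ∧ ∑ i ∈ I, d i < L := by
  classical
  rw [Measure.hausdorffMeasure_apply] at hL
  have hr : (0 : ℝ≥0∞) < ENNReal.ofReal (δ / 2) := ENNReal.ofReal_pos.2 (by linarith)
  have h1 := lt_of_le_of_lt (le_iSup₂ (f := fun (r : ℝ≥0∞) (_ : 0 < r) =>
    ⨅ (t : ℕ → Set X) (_ : K ⊆ ⋃ n, t n) (_ : ∀ n, Metric.ediam (t n) ≤ r),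
          ∑' n, ⨆ _ : (t n).Nonempty, Metric.ediam (t n) ^ (1 : ℝ)) _ hr) hL
  simp only [iInf_lt_iff] at h1
  obtain ⟨t, htK, htr, hsum⟩ := h1
  set e : ℕ → ℝ≥0∞ := fun n => ⨆ _ : (t n).Nonempty, Metric.ediam (t n) ^ (1 : ℝ) with he
  have hene : ∀ n, (t n).Nonempty → e n = Metric.ediam (t n) := by
    intro n hn
    simp [he, hn]
  have her : ∀ n, e n ≤ ENNReal.ofReal (δ / 2) := by
    intro n
    refine iSup_le fun hn => ?_
    rw [ENNReal.rpow_one]; exact htr n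
  have hg : min ((ENNReal.ofReal L - ∑' n, e n) / 2) (ENNReal.ofReal (δ / 4)) ≠ 0 := by
    refine (lt_min ?_ (ENNReal.ofReal_pos.2 (by linarith))).ne'
    exact ENNReal.div_pos (tsub_pos_iff_lt.2 hsum).ne' (by norm_num)
  obtain ⟨ε, hε0, hεs⟩ := ENNReal.exists_pos_sum_of_countable hg ℕ
  set D : ℕ → ℝ≥0∞ := fun n => e n + 2 * ε n with hD
  have hDδ : ∀ n, D n ≤ ENNReal.ofReal δ := by
    intro n
    have h2 : (2 * ε n : ℝ≥0∞) ≤ ENNReal.ofReal (δ / 2) := by
      have h3 : (ε n : ℝ≥0∞) ≤ ENNReal.ofReal (δ / 4) :=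
        (ENNReal.le_tsum n).trans (hεs.le.trans (min_le_right _ _))
      calc (2 * ε n : ℝ≥0∞) ≤ 2 * ENNReal.ofReal (δ / 4) := by gcongr
        _ = ENNReal.ofReal (δ / 2) := by
          rw [show (2 : ℝ≥0∞) = ENNReal.ofReal 2 by simp, ← ENNReal.ofReal_mul (by norm_num)]
          congr 1; ring
    calc D n ≤ ENNReal.ofReal (δ / 2) + ENNReal.ofReal (δ / 2) := add_le_add (her n) h2
      _ = ENNReal.ofReal δ := by
        rw [← ENNReal.ofReal_add (by linarith) (by linarith)]; congr 1; ring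
  have hDtop : ∀ n, D n ≠ ⊤ := fun n => ne_top_of_le_ne_top ENNReal.ofReal_ne_top (hDδ n)
  have hDsum : ∑' n, D n < ENNReal.ofReal L := by
    rw [hD, ENNReal.tsum_add, ENNReal.tsum_mul_left]
    have h2 : 2 * ∑' n, (ε n : ℝ≥0∞) < ENNReal.ofReal L - ∑' n, e n := by
      have := hεs.trans_le (min_le_left _ _)
      rw [mul_comm]
      exact (ENNReal.lt_div_iff_mul_lt (by norm_num) (by norm_num)).1 this
    rw [add_comm]
    exact lt_tsub_iff_right.1 h2
  set U : ℕ → Set X := fun n => Metric.thickening (ε n) (t n) with hU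
  have hUo : ∀ n, IsOpen (U n) := fun n => Metric.isOpen_thickening
  have hKU : K ⊆ ⋃ n, U n := htK.trans (Set.iUnion_mono fun n =>
    Metric.self_subset_thickening (by exact_mod_cast hε0 n) _)
  have hUd : ∀ i, ∀ a ∈ U i, ∀ b ∈ U i, dist a b ≤ (D i).toReal := by
    intro i a ha b hb
    have hti : (t i).Nonempty := by
      obtain ⟨c, hc, -⟩ := Metric.mem_thickening_iff.1 ha
      exact ⟨c, hc⟩
    have h2 : edist a b ≤ D i := by
      calc edist a b ≤ Metric.ediam (U i) := Metric.edist_le_ediam_of_mem ha hb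
        _ ≤ Metric.ediam (t i) + 2 * ε i := Metric.ediam_thickening_le _
        _ = D i := by rw [hD]; simp only; rw [hene i hti]
    rw [dist_edist]
    exact ENNReal.toReal_mono (hDtop i) h2
  obtain ⟨I0, hI0⟩ := hK.elim_finite_subcover U hUo hKU
  refine ⟨I0.filter fun i => (K ∩ U i).Nonempty, U, fun i => (D i).toReal, hUo, ?_, ?_, hUd, ?_, ?_⟩
  · intro x hx
    obtain ⟨i, hi, hxi⟩ := Set.mem_iUnion₂.1 (hI0 hx)
    exact Set.mem_iUnion₂.2 ⟨i, Finset.mem_filter.2 ⟨hi, x, hx, hxi⟩, hxi⟩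
  · intro i hi
    exact (Finset.mem_filter.1 hi).2
  · intro i
    exact ENNReal.toReal_le_of_le_ofReal hδ.le (hDδ i)
  · rw [← ENNReal.toReal_sum (fun i _ => hDtop i)]
    refine ENNReal.toReal_lt_of_lt_ofReal (lt_of_le_of_lt (ENNReal.sum_le_tsum _) hDsum)

/-! ### Growing a tree inside a thin connected cover -/

section Grow

variable {X : Type*} [PseudoMetricSpace X]

/-- `Grown I U d c J A`: the tree on `A` costs at most `c` plus the diameters of the sets in `J`,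
and touches all the sets of `J`. -/
structure Grown (U : ℕ → Set X) (d : ℕ → ℝ) (c : ℝ) (J : Finset ℕ) (A : Set X) : Prop where
  net : NetOn A (∑ i ∈ J, d i + c)
  touch : ∀ i ∈ J, ∃ a ∈ A, a ∈ U i

lemma Grown.extend {I : Finset ℕ} {U : ℕ → Set X} {d : ℕ → ℝ} {δ c : ℝ}
    (hd : ∀ i, ∀ a ∈ U i, ∀ b ∈ U i, dist a b ≤ d i) (hδ : ∀ i, d i ≤ δ) (_hδ0 : 0 ≤ δ)
    (hconn : ∀ R ⊆ I, R.Nonempty → R ≠ I → ∃ i ∈ R, ∃ j ∈ I, j ∉ R ∧ (U i ∩ U j).Nonempty)
    {J : Finset ℕ} {A : Set X} (hJ : J ⊆ I) (hJne : J.Nonempty) (hG : Grown U d c J A) :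
    ∀ i ∈ I, ∀ x ∈ U i, ∃ (J' : Finset ℕ) (A' : Set X), J ⊆ J' ∧ J' ⊆ I ∧ A ⊆ A' ∧ x ∈ A' ∧
      Grown U d (c + δ) J' A' := by
  classical
  -- `Q R`: everything in `R` can be reached through `R`
  let Q : Finset ℕ → Prop := fun R => ∀ i ∈ R, ∀ x ∈ U i, ∃ (J' : Finset ℕ) (A' : Set X),
    J ⊆ J' ∧ J' ⊆ R ∧ A ⊆ A' ∧ x ∈ A' ∧ Grown U d (c + δ) J' A'
  have hQJ : Q J := by
    intro i hi x hx
    obtain ⟨a, haA, haU⟩ := hG.touch i hi
    refine ⟨J, insert x A, subset_rfl, subset_rfl, Set.subset_insert _ _, Set.mem_insert _ _, ?_, ?_⟩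
    · refine (hG.net.insert haA x).mono subset_rfl ?_
      have := (hd i x hx a haU).trans (hδ i)
      linarith
    · intro i hi
      obtain ⟨a, ha, ha'⟩ := hG.touch i hi
      exact ⟨a, Set.mem_insert_of_mem _ ha, ha'⟩
  have hstep : ∀ R, J ⊆ R → R ⊆ I → Q R → R ≠ I → ∃ R', J ⊆ R' ∧ R' ⊆ I ∧ R ⊂ R' ∧ Q R' := by
    intro R hJR hRI hQ hne
    obtain ⟨i, hiR, j, hjI, hjR, p, hpi, hpj⟩ := hconn R hRI (hJne.mono hJR) hne
    refine ⟨insert j R, hJR.trans (Finset.subset_insert _ _), ?_, ?_, ?_⟩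
    · intro k hk
      rcases Finset.mem_insert.1 hk with rfl | hk
      · exact hjI
      · exact hRI hk
    · exact Finset.ssubset_insert hjR
    · intro k hk x hx
      rcases Finset.mem_insert.1 hk with rfl | hk
      · obtain ⟨J', A', h1, h2, h3, h4, h5⟩ := hQ i hiR p hpi
        have hkJ' : k ∉ J' := fun h => hjR (h2 h)
        refine ⟨insert k J', insert x A', h1.trans (Finset.subset_insert _ _),
          Finset.insert_subset_insert _ h2, h3.trans (Set.subset_insert _ _),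
          Set.mem_insert _ _, ?_, ?_⟩
        · refine (h5.net.insert h4 x).mono subset_rfl ?_
          rw [Finset.sum_insert hkJ']
          have := hd k x hx p hpj
          linarith
        · intro l hl
          rcases Finset.mem_insert.1 hl with rfl | hl
          · exact ⟨x, Set.mem_insert _ _, hx⟩
          · obtain ⟨a, ha, ha'⟩ := h5.touch l hl
            exact ⟨a, Set.mem_insert_of_mem _ ha, ha'⟩
      · obtain ⟨J', A', h1, h2, h3, h4, h5⟩ := hQ k hk x hx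
        exact ⟨J', A', h1, h2.trans (Finset.subset_insert _ _), h3, h4, h5⟩
  have hall : ∀ n : ℕ, ∀ R, J ⊆ R → R ⊆ I → Q R → I.card - R.card ≤ n → Q I := by
    intro n
    induction n with
    | zero =>
      intro R _ hRI hQ hcard
      have : R = I := Finset.eq_of_subset_of_card_le hRI (by omega)
      rwa [← this]
    | succ n ih =>
      intro R hJR hRI hQ hcard
      by_cases hne : R = I
      · rwa [← hne]
      · obtain ⟨R', h1, h2, h3, h4⟩ := hstep R hJR hRI hQ hne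
        have h5 := Finset.card_lt_card h3
        have h6 := Finset.card_le_card h2
        exact ih R' h1 h2 h4 (by omega)
  exact hall _ J subset_rfl hJ hQJ le_rfl

lemma exists_netOn_of_cover {I : Finset ℕ} {U : ℕ → Set X} {d : ℕ → ℝ} {δ : ℝ}
    (hd : ∀ i, ∀ a ∈ U i, ∀ b ∈ U i, dist a b ≤ d i) (hδ : ∀ i, d i ≤ δ) (hδ0 : 0 ≤ δ)
    (hd0 : ∀ i, 0 ≤ d i)
    (hconn : ∀ R ⊆ I, R.Nonempty → R ≠ I → ∃ i ∈ R, ∃ j ∈ I, j ∉ R ∧ (U i ∩ U j).Nonempty)
    (hI : I.Nonempty) (hU : ∀ i ∈ I, (U i).Nonempty) (n : ℕ) (x : Fin n → X)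
    (hx : ∀ k, ∃ i ∈ I, x k ∈ U i) :
    ∃ A : Set X, (∀ k, x k ∈ A) ∧ NetOn A (∑ i ∈ I, d i + n * δ) := by
  classical
  have key : ∃ (J : Finset ℕ) (A : Set X), J ⊆ I ∧ J.Nonempty ∧ (∀ k, x k ∈ A) ∧
      Grown U d (n * δ) J A := by
    induction n with
    | zero =>
      obtain ⟨i, hi⟩ := hI
      obtain ⟨a, ha⟩ := hU i hi
      refine ⟨{i}, {a}, by simpa using hi, by simp, fun k => k.elim0, ?_, ?_⟩
      · refine (NetOn.single a).mono subset_rfl ?_
        have := hd0 i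
        simpa using this
      · intro j hj
        rw [Finset.mem_singleton] at hj
        subst hj
        exact ⟨a, rfl, ha⟩
    | succ n ih =>
      obtain ⟨J, A, hJI, hJne, hxA, hG⟩ := ih (fun k => x k.castSucc) (fun k => hx k.castSucc)
      obtain ⟨i, hi, hxi⟩ := hx (Fin.last n)
      obtain ⟨J', A', h1, h2, h3, h4, h5⟩ :=
        hG.extend hd hδ hδ0 hconn hJI hJne i hi _ hxi
      refine ⟨J', A', h2, hJne.mono h1, ?_, ?_⟩
      · intro k
        induction k using Fin.lastCases with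
        | last => exact h4
        | cast k => exact h3 (hxA k)
      · have : ((n + 1 : ℕ) : ℝ) * δ = n * δ + δ := by push_cast; ring
        rw [this]; exact h5
  obtain ⟨J, A, hJI, -, hxA, hG⟩ := key
  refine ⟨A, hxA, hG.net.mono subset_rfl ?_⟩
  have := Finset.sum_le_sum_of_subset_of_nonneg hJI (fun i _ _ => hd0 i)
  linarith

end Grow

/-- **Network lemma.** Finitely many points of a continuum of length `< L` are nodes of a finite
tree of total length `< L`. -/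
theorem exists_netOn {X : Type*} [MetricSpace X] [MeasurableSpace X] [BorelSpace X]
    {K : Set X} (hK : IsCompact K) (hKc : IsConnected K) {L : ℝ}
    (hL : μH[1] K < ENNReal.ofReal L) {n : ℕ} (x : Fin n → X) (hx : ∀ k, x k ∈ K) :
    ∃ A : Set X, (∀ k, x k ∈ A) ∧ ∃ ℓ < L, NetOn A ℓ := by
  classical
  obtain ⟨L', hL'1, hL'2⟩ : ∃ L' < L, μH[1] K < ENNReal.ofReal L' := by
    obtain ⟨c, hc1, hc2⟩ := exists_between hL
    have hcne : c ≠ ⊤ := ne_top_of_lt hc2
    exact ⟨c.toReal, ENNReal.toReal_lt_of_lt_ofReal hc2, by rwa [ENNReal.ofReal_toReal hcne]⟩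
  set δ : ℝ := (L - L') / (n + 1) with hδ
  have hn : (0 : ℝ) < n + 1 := by positivity
  have hδ0 : 0 < δ := div_pos (by linarith) hn
  obtain ⟨I, U, d, hUo, hKU, hIK, hd, hdδ, hsum⟩ := exists_open_cover hK hL'2 hδ0
  have hd0' : ∀ i ∈ I, 0 ≤ d i := by
    intro i hi
    obtain ⟨a, -, ha⟩ := hIK i hi
    exact (dist_nonneg (x := a) (y := a)).trans (hd i a ha a ha)
  have hI : I.Nonempty := by
    obtain ⟨a, ha⟩ := hKc.nonempty
    obtain ⟨i, hi, -⟩ := Set.mem_iUnion₂.1 (hKU ha)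
    exact ⟨i, hi⟩
  have hconn : ∀ R ⊆ I, R.Nonempty → R ≠ I → ∃ i ∈ R, ∃ j ∈ I, j ∉ R ∧ (U i ∩ U j).Nonempty := by
    intro R hRI hRne hRI'
    have hne : (I \ R).Nonempty := by
      rw [Finset.sdiff_nonempty]
      exact fun h => hRI' (Finset.Subset.antisymm hRI h)
    have h1 := hKc.isPreconnected (⋃ i ∈ R, U i) (⋃ i ∈ I \ R, U i)
      (isOpen_biUnion fun i _ => hUo i) (isOpen_biUnion fun i _ => hUo i) ?_ ?_ ?_
    · obtain ⟨p, -, hp1, hp2⟩ := h1
      obtain ⟨i, hi, hpi⟩ := Set.mem_iUnion₂.1 hp1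
      obtain ⟨j, hj, hpj⟩ := Set.mem_iUnion₂.1 hp2
      rw [Finset.mem_sdiff] at hj
      exact ⟨i, hi, j, hj.1, hj.2, p, hpi, hpj⟩
    · intro p hp
      obtain ⟨i, hi, hpi⟩ := Set.mem_iUnion₂.1 (hKU hp)
      by_cases hiR : i ∈ R
      · exact Or.inl (Set.mem_iUnion₂.2 ⟨i, hiR, hpi⟩)
      · exact Or.inr (Set.mem_iUnion₂.2 ⟨i, Finset.mem_sdiff.2 ⟨hi, hiR⟩, hpi⟩)
    · obtain ⟨i, hi⟩ := hRne
      obtain ⟨p, hpK, hp⟩ := hIK i (hRI hi)
      exact ⟨p, hpK, Set.mem_iUnion₂.2 ⟨i, hi, hp⟩⟩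
    · obtain ⟨i, hi⟩ := hne
      obtain ⟨p, hpK, hp⟩ := hIK i (Finset.mem_sdiff.1 hi).1
      exact ⟨p, hpK, Set.mem_iUnion₂.2 ⟨i, hi, hp⟩⟩
  -- replace `d` by its positive part
  obtain ⟨A, hxA, hnet⟩ := exists_netOn_of_cover (I := I) (U := U) (d := fun i => max (d i) 0)
    (δ := δ) (fun i a ha b hb => (hd i a ha b hb).trans (le_max_left _ _))
    (fun i => max_le (hdδ i) hδ0.le) hδ0.le (fun i => le_max_right _ _) hconn hI
    (fun i hi => (hIK i hi).mono Set.inter_subset_right) n x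
    (fun k => by
      obtain ⟨i, hi, h⟩ := Set.mem_iUnion₂.1 (hKU (hx k))
      exact ⟨i, hi, h⟩)
  refine ⟨A, hxA, _, ?_, hnet⟩
  have h1 : ∑ i ∈ I, max (d i) 0 = ∑ i ∈ I, d i :=
    Finset.sum_congr rfl fun i hi => max_eq_left (hd0' i hi)
  rw [h1]
  have h2 : (n : ℝ) * δ ≤ L - L' := by
    have : (n + 1 : ℝ) * δ = L - L' := by rw [hδ]; field_simp
    nlinarith
  linarith

end Pool.Agent.Lib.H81
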