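import Mathlib
import Pool.Agent.Lib.H81.TreeNet

/-!
# Calibrations of finite trees
-/

set_option autoImplicit false

open scoped RealInnerProductSpace

namespace Pool.Agent.Lib.H81

/-- `j` is an ancestor of `i` (or `i` itself) for the parent function `par`. -/
def Anc (par : ℕ → ℕ) (j i : ℕ) : Prop := ∃ r : ℕ, par^[r] i = j

section Anc

variable {par : ℕ → ℕ}

lemma iterate_le (h0 : par 0 = 0) (hp : ∀ j, 1 ≤ j → par j < j) (r i : ℕ) : par^[r] i ≤ i := by
  induction r generalizing i with
  | zero => simp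
  | succ r ih =>
    rw [Function.iterate_succ_apply]
    refine (ih _).trans ?_
    rcases Nat.eq_zero_or_pos i with rfl | hi
    · rw [h0]
    · exact (hp i hi).le

lemma Anc.refl (i : ℕ) : Anc par i i := ⟨0, rfl⟩

lemma anc_zero (h0 : par 0 = 0) {j : ℕ} (h : Anc par j 0) : j = 0 := by
  obtain ⟨r, hr⟩ := h
  rw [← hr]
  exact Function.iterate_fixed h0 r

lemma anc_iff {j i : ℕ} : Anc par j i ↔ i = j ∨ Anc par j (par i) := by
  constructor
  · rintro ⟨r, hr⟩
    cases r with
    | zero => exact Or.inl hr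
    | succ r => exact Or.inr ⟨r, by rwa [Function.iterate_succ_apply] at hr⟩
  · rintro (h | ⟨r, hr⟩)
    · exact ⟨0, h⟩
    · exact ⟨r + 1, by rwa [Function.iterate_succ_apply]⟩

lemma not_anc_par (h0 : par 0 = 0) (hp : ∀ j, 1 ≤ j → par j < j) {i : ℕ} (hi : 1 ≤ i) :
    ¬ Anc par i (par i) := by
  rintro ⟨r, hr⟩
  have := iterate_le h0 hp r (par i)
  have := hp i hi
  omega

/-- The descendant sets are laminar. -/
lemma anc_laminar {j j' i : ℕ} (h : Anc par j i) (h' : Anc par j' i) :
    Anc par j j' ∨ Anc par j' j := by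
  obtain ⟨r, hr⟩ := h
  obtain ⟨r', hr'⟩ := h'
  rcases le_total r r' with hle | hle
  · right
    refine ⟨r' - r, ?_⟩
    rw [← hr, ← Function.iterate_add_apply, Nat.sub_add_cancel hle, hr']
  · left
    refine ⟨r - r', ?_⟩
    rw [← hr', ← Function.iterate_add_apply, Nat.sub_add_cancel hle, hr]

lemma Anc.trans {j j' i : ℕ} (h : Anc par j j') (h' : Anc par j' i) : Anc par j i := by
  obtain ⟨r, hr⟩ := h
  obtain ⟨r', hr'⟩ := h'
  exact ⟨r + r', by rw [Function.iterate_add_apply, hr', hr]⟩

end Anc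

open Classical in
/-- Telescoping along the path from the root. -/
lemma sub_root_eq {E : Type*} [AddCommGroup E] {m : ℕ} {z : ℕ → E} {par : ℕ → ℕ} (h0 : par 0 = 0)
    (hp : ∀ j, 1 ≤ j → par j < j) (i : ℕ) (hi : i ≤ m) :
    z i - z 0 = ∑ j ∈ Finset.Icc 1 m, if Anc par j i then z j - z (par j) else 0 := by
  induction i using Nat.strong_induction_on with
  | _ i ih =>
    rcases Nat.eq_zero_or_pos i with rfl | hpos
    · rw [sub_self, Finset.sum_eq_zero]
      intro j hj
      rw [Finset.mem_Icc] at hj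
      rw [if_neg]
      intro h
      have := anc_zero h0 h
      omega
    · have h1 := ih (par i) (hp i hpos) ((hp i hpos).le.trans hi)
      have h2 : z i - z 0 = (z i - z (par i)) + (z (par i) - z 0) := by abel
      rw [h2, h1]
      have h3 : z i - z (par i) = ∑ j ∈ Finset.Icc 1 m, if j = i then z j - z (par j) else 0 := by
        rw [Finset.sum_ite_eq' (Finset.Icc 1 m) i (fun j => z j - z (par j)),
          if_pos (Finset.mem_Icc.2 ⟨hpos, hi⟩)]
      rw [h3, ← Finset.sum_add_distrib]
      refine Finset.sum_congr rfl fun j hj => ?_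
      by_cases hji : j = i
      · subst hji
        rw [if_pos rfl, if_neg (not_anc_par h0 hp hpos), if_pos (Anc.refl _), add_zero]
      · rw [if_neg hji, zero_add]
        congr 1
        rw [eq_iff_iff, anc_iff (i := i)]
        constructor
        · exact Or.inr
        · rintro (h | h)
          · exact absurd h.symm hji
          · exact h

open Classical in
/-- **Calibration inequality.** -/
lemma calib {E : Type*} [NormedAddCommGroup E] [InnerProductSpace ℝ E] {m : ℕ} {z : ℕ → E}
    {par : ℕ → ℕ} (h0 : par 0 = 0) (hp : ∀ j, 1 ≤ j → par j < j) {κ : Type*} [Fintype κ]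
    (t : κ → ℕ) (ht : ∀ k, t k ≤ m) (w : κ → E) (hw : ∑ k, w k = 0)
    (hn : ∀ j ∈ Finset.Icc 1 m, ‖∑ k, if Anc par j (t k) then w k else 0‖ ≤ 1) :
    ∑ k, ⟪z (t k), w k⟫ ≤ ∑ j ∈ Finset.Icc 1 m, dist (z j) (z (par j)) := by
  have h1 : ∑ k, ⟪z (t k), w k⟫ = ∑ k, ⟪z (t k) - z 0, w k⟫ := by
    simp only [inner_sub_left, Finset.sum_sub_distrib, ← inner_sum, hw, inner_zero_right, sub_zero]
  rw [h1]
  calc ∑ k, ⟪z (t k) - z 0, w k⟫
      = ∑ k, ∑ j ∈ Finset.Icc 1 m, ⟪z j - z (par j), if Anc par j (t k) then w k else 0⟫ := by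
        refine Finset.sum_congr rfl fun k _ => ?_
        rw [sub_root_eq h0 hp (t k) (ht k), sum_inner]
        refine Finset.sum_congr rfl fun j _ => ?_
        by_cases h : Anc par j (t k)
        · rw [if_pos h, if_pos h]
        · rw [if_neg h, if_neg h, inner_zero_left, inner_zero_right]
    _ = ∑ j ∈ Finset.Icc 1 m, ⟪z j - z (par j), ∑ k, if Anc par j (t k) then w k else 0⟫ := by
        rw [Finset.sum_comm]
        refine Finset.sum_congr rfl fun j _ => ?_
        rw [inner_sum]
    _ ≤ ∑ j ∈ Finset.Icc 1 m, dist (z j) (z (par j)) := by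
        refine Finset.sum_le_sum fun j hj => ?_
        refine (real_inner_le_norm _ _).trans ?_
        rw [dist_eq_norm]
        calc _ ≤ ‖z j - z (par j)‖ * 1 := mul_le_mul_of_nonneg_left (hn j hj) (norm_nonneg _)
          _ = _ := mul_one _

end Pool.Agent.Lib.H81
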