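import Mathlib
import Pool.Agent.Lib.H81.Calib

/-!
# Length of continua within distance `2` of eight points around the square `[-1,1]²`

The eight points `yv k` lie at distance `2` from the four corners `(±1, ±1)`.  We show that a
continuum which comes within distance `2` of all of them has length at least `2 (1 + √3)`, the
length of a Steiner tree of the four corners.  The proof: a finite tree which touches all eight
discs is calibrated by one of 24 systems of eight vectors (one vector per disc); which one depends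
on the laminar family of subsets of the discs cut off by the edges of the tree, and the kernel
checks that every laminar family is served by one of the 24 systems.
-/

set_option autoImplicit false

open scoped RealInnerProductSpace
open MeasureTheory

namespace Pool.Agent.Lib.H81

/-! ### The combinatorial check -/

/-- Two subsets are disjoint (subsets of `{0, …, n-1}` are coded by lists of Booleans). -/
def disj : List Bool → List Bool → Bool
  | a :: l, b :: l' => !(a && b) && disj l l'
  | _, _ => true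

/-- One subset is contained in the other. -/
def sub : List Bool → List Bool → Bool
  | a :: l, b :: l' => (!a || b) && sub l l'
  | _, _ => true

/-- Two subsets are disjoint or nested. -/
def lam (S T : List Bool) : Bool := disj S T || sub S T || sub T S

/-- All lists of Booleans of length `n`. -/
def allMasks : ℕ → List (List Bool)
  | 0 => [[]]
  | n + 1 => (allMasks n).flatMap fun l => [false :: l, true :: l]

/-- Search for a test passed by all members of a laminar family `⊆ al` containing `ch`. -/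
def search : List (List Bool → Bool) → List (List Bool) → List (List Bool) → Bool
  | [], _, _ => false
  | ok :: oks, al, ch =>
    if ch.all ok then
      (al.filter fun S => !ok S).all fun S => search oks (al.filter fun T => lam S T) (S :: ch)
    else search oks al ch

theorem search_sound (oks : List (List Bool → Bool)) (al ch : List (List Bool))
    (h : search oks al ch = true) (F : Set (List Bool)) (hF : ∀ S ∈ F, S ∈ al)
    (hlam : ∀ S ∈ F, ∀ T ∈ F, lam S T = true) : ∃ ok ∈ oks, ∀ S ∈ F, ok S = true := by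
  induction oks generalizing al ch with
  | nil => simp [search] at h
  | cons ok oks ih =>
    rw [search] at h
    split_ifs at h with hch
    · by_cases hall : ∀ S ∈ F, ok S = true
      · exact ⟨ok, List.mem_cons_self, hall⟩
      · push Not at hall
        obtain ⟨S, hS, hok⟩ := hall
        rw [List.all_eq_true] at h
        have h1 := h S (by
          rw [List.mem_filter]
          exact ⟨hF S hS, by simpa using hok⟩)
        obtain ⟨ok', h2, h3⟩ := ih _ _ h1 (fun T hT => by
          rw [List.mem_filter]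
          exact ⟨hF T hT, hlam S hS T hT⟩)
        exact ⟨ok', List.mem_cons_of_mem _ h2, h3⟩
    · obtain ⟨ok', h2, h3⟩ := ih _ _ h hF
      exact ⟨ok', List.mem_cons_of_mem _ h2, h3⟩

lemma mem_allMasks (n : ℕ) (f : Fin n → Bool) : List.ofFn f ∈ allMasks n := by
  induction n with
  | zero => simp [allMasks]
  | succ n ih =>
    rw [List.ofFn_succ, allMasks, List.mem_flatMap]
    refine ⟨_, ih (fun i => f i.succ), ?_⟩
    cases f 0 <;> simp

lemma disj_ofFn (n : ℕ) (f g : Fin n → Bool) :
    disj (List.ofFn f) (List.ofFn g) = true ↔ ∀ k, ¬ (f k = true ∧ g k = true) := by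
  induction n with
  | zero => simp [disj]
  | succ n ih =>
    rw [List.ofFn_succ, List.ofFn_succ, disj, Bool.and_eq_true, ih]
    constructor
    · rintro ⟨h1, h2⟩ k
      induction k using Fin.cases with
      | zero =>
        rintro ⟨hf, hg⟩
        simp [hf, hg] at h1
      | succ k => exact h2 k
    · intro h
      refine ⟨?_, fun k => h k.succ⟩
      have := h 0
      cases h0 : f 0 <;> cases h1 : g 0 <;> simp_all

lemma sub_ofFn (n : ℕ) (f g : Fin n → Bool) :
    sub (List.ofFn f) (List.ofFn g) = true ↔ ∀ k, f k = true → g k = true := by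
  induction n with
  | zero => simp [sub]
  | succ n ih =>
    rw [List.ofFn_succ, List.ofFn_succ, sub, Bool.and_eq_true, ih]
    constructor
    · rintro ⟨h1, h2⟩ k
      induction k using Fin.cases with
      | zero =>
        intro hf
        simpa [hf] using h1
      | succ k => exact h2 k
    · intro h
      refine ⟨?_, fun k => h k.succ⟩
      have := h 0
      cases h0 : f 0
      · simp
      · simpa using this h0

/-- The vector sum over a subset. -/
def msum : List (ℤ × ℤ × ℤ) → List Bool → ℤ × ℤ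
  | (a, b, _) :: W, s :: S => if s then (a + (msum W S).1, b + (msum W S).2) else msum W S
  | _, _ => (0, 0)

/-- The subset sum has norm at most `10000`. -/
def okW (W : List (ℤ × ℤ × ℤ)) (S : List Bool) : Bool :=
  let r := msum W S
  decide (r.1 * r.1 + r.2 * r.2 ≤ 100000000)

lemma msum_ofFn (W : List (ℤ × ℤ × ℤ)) (n : ℕ) (h : W.length = n) (f : Fin n → Bool) :
    msum W (List.ofFn f) = (∑ k : Fin n, if f k then (W.getD k 0).1 else 0,
      ∑ k : Fin n, if f k then (W.getD k 0).2.1 else 0) := by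
  induction W generalizing n with
  | nil =>
    subst h
    simp [msum]
  | cons a W ih =>
    cases n with
    | zero => simp at h
    | succ n =>
      obtain ⟨x, y, m⟩ := a
      rw [List.ofFn_succ, msum, ih n (by simpa using h) (fun i => f i.succ), Fin.sum_univ_succ,
        Fin.sum_univ_succ]
      cases h0 : f 0 <;> simp

/-- The bad sets for the first exact calibration. -/
def okA : List Bool → Bool
  | [_, b60, b120, _, _, b240, b300, _] =>
    !((b60 && b120 && !b240 && !b300) || (!b60 && !b120 && b240 && b300))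
  | _ => false

/-- The bad sets for the second exact calibration. -/
def okB : List Bool → Bool
  | [b30, _, _, b150, b210, _, _, b330] =>
    !((b150 && b210 && !b30 && !b330) || (!b150 && !b210 && b30 && b330))
  | _ => false

/-- The weights of 22 calibrations, times `10000`, with upper bounds for their norms. -/
def certs : List (List (ℤ × ℤ × ℤ)) := [
  [(8068, 5906, 9999), (5906, 8068, 9999), (0, 0, 0), (0, 0, 0), (-8068, -5906, 9999), (-5906, -8068, 9999), (0, 0, 0), (0, 0, 0)],
  [(8068, 5906, 9999), (0, 0, 0), (-5906, 8068, 9999), (0, 0, 0), (-8068, -5906, 9999), (0, 0, 0), (5906, -8068, 9999), (0, 0, 0)],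
  [(8068, 5906, 9999), (0, 0, 0), (0, 0, 0), (-8068, 5906, 9999), (-8068, -5906, 9999), (0, 0, 0), (0, 0, 0), (8068, -5906, 9999)],
  [(0, 0, 0), (5906, 8068, 9999), (-5906, 8068, 9999), (0, 0, 0), (0, 0, 0), (-5906, -8068, 9999), (5906, -8068, 9999), (0, 0, 0)],
  [(0, 0, 0), (5906, 8068, 9999), (0, 0, 0), (-8068, 5906, 9999), (0, 0, 0), (-5906, -8068, 9999), (0, 0, 0), (8068, -5906, 9999)],
  [(0, 0, 0), (0, 0, 0), (-5906, 8068, 9999), (-8068, 5906, 9999), (0, 0, 0), (0, 0, 0), (5906, -8068, 9999), (8068, -5906, 9999)],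
  [(5709, 6332, 8526), (6757, 5955, 9007), (-731, 1448, 1623), (-3375, 2234, 4048), (-5515, -6387, 8439), (-6826, -5698, 8892), (1375, -2381, 2750), (2606, -1503, 3009)],
  [(3375, 2234, 4048), (731, 1448, 1623), (-6757, 5955, 9007), (-5709, 6332, 8526), (-2606, -1503, 3009), (-1375, -2381, 2750), (6826, -5698, 8892), (5515, -6387, 8439)],
  [(2606, 1503, 3009), (1375, 2381, 2750), (-6826, 5698, 8892), (-5515, 6387, 8439), (-3375, -2234, 4048), (-731, -1448, 1623), (6757, -5955, 9007), (5709, -6332, 8526)],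
  [(5515, 6387, 8439), (6826, 5698, 8892), (-1375, 2381, 2750), (-2606, 1503, 3009), (-5709, -6332, 8526), (-6757, -5955, 9007), (731, -1448, 1623), (3375, -2234, 4048)],
  [(417, 394, 574), (8283, 4527, 9440), (-6095, 4729, 7715), (-4729, 6095, 7715), (-4527, -8283, 9440), (-394, -417, 574), (2579, -4466, 5158), (4466, -2579, 5158)],
  [(4729, 6095, 7715), (6095, 4729, 7715), (-8283, 4527, 9440), (-417, 394, 574), (-4466, -2579, 5158), (-2579, -4466, 5158), (394, -417, 574), (4527, -8283, 9440)],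
  [(4466, 2579, 5158), (2579, 4466, 5158), (-394, 417, 574), (-4527, 8283, 9440), (-4729, -6095, 7715), (-6095, -4729, 7715), (8283, -4527, 9440), (417, -394, 574)],
  [(4527, 8283, 9440), (394, 417, 574), (-2579, 4466, 5158), (-4466, 2579, 5158), (-417, -394, 574), (-8283, -4527, 9440), (6095, -4729, 7715), (4729, -6095, 7715)],
  [(1723, 1118, 2054), (2001, 2436, 3153), (-7047, 5872, 9173), (-5428, 6816, 8714), (-2497, -1496, 2911), (-1701, -2629, 3132), (7188, -5412, 8998), (5761, -6705, 8841)],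
  [(5428, 6816, 8714), (7047, 5872, 9173), (-2001, 2436, 3153), (-1723, 1118, 2054), (-5761, -6705, 8841), (-7188, -5412, 8998), (1701, -2629, 3132), (2497, -1496, 2911)],
  [(5761, 6705, 8841), (7188, 5412, 8998), (-1701, 2629, 3132), (-2497, 1496, 2911), (-5428, -6816, 8714), (-7047, -5872, 9173), (2001, -2436, 3153), (1723, -1118, 2054)],
  [(2497, 1496, 2911), (1701, 2629, 3132), (-7188, 5412, 8998), (-5761, 6705, 8841), (-1723, -1118, 2054), (-2001, -2436, 3153), (7047, -5872, 9173), (5428, -6816, 8714)],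
  [(2629, 1701, 3132), (1496, 2497, 2911), (-6816, 5428, 8714), (-5872, 7047, 9173), (-2436, -2001, 3153), (-1118, -1723, 2054), (6705, -5761, 8841), (5412, -7188, 8998)],
  [(5872, 7047, 9173), (6816, 5428, 8714), (-1496, 2497, 2911), (-2629, 1701, 3132), (-5412, -7188, 8998), (-6705, -5761, 8841), (1118, -1723, 2054), (2436, -2001, 3153)],
  [(5412, 7188, 8998), (6705, 5761, 8841), (-1118, 1723, 2054), (-2436, 2001, 3153), (-5872, -7047, 9173), (-6816, -5428, 8714), (1496, -2497, 2911), (2629, -1701, 3132)],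
  [(2436, 2001, 3153), (1118, 1723, 2054), (-6705, 5761, 8841), (-5412, 7188, 8998), (-2629, -1701, 3132), (-1496, -2497, 2911), (6816, -5428, 8714), (5872, -7047, 9173)]
]

/-- All tests. -/
def tests : List (List Bool → Bool) := okA :: okB :: certs.map okW

theorem search_tests : search tests (allMasks 8) [] = true := by decide +kernel

/-! ### The eight points and the meaning of the certificates -/

/-- The plane. -/
abbrev E := EuclideanSpace ℝ (Fin 2)

/-- Coordinates of the eight points: `(a, b, c, d)` stands for `(a + b √3, c + d √3)`. -/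
def yc : Fin 8 → ℤ × ℤ × ℤ × ℤ :=
  ![(1, 1, 2, 0), (2, 0, 1, 1), (-2, 0, 1, 1), (-1, -1, 2, 0),
    (-1, -1, -2, 0), (-2, 0, -1, -1), (2, 0, -1, -1), (1, 1, -2, 0)]

/-- The eight points. -/
noncomputable def yv (k : Fin 8) : E :=
  !₂[((yc k).1 : ℝ) + (yc k).2.1 * √3, ((yc k).2.2.1 : ℝ) + (yc k).2.2.2 * √3]

/-- `w` is a system of vectors with sum zero whose subset sums over the sets passing the test `ok`
have norm at most one, and which certifies the length bound. -/
structure IsCert (ok : List Bool → Bool) (w : Fin 8 → E) : Prop where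
  sum_zero : ∑ k, w k = 0
  norm_le : ∀ f : Fin 8 → Bool, ok (List.ofFn f) = true → ‖∑ k, if f k then w k else 0‖ ≤ 1
  value : 2 * (1 + √3) ≤ ∑ k, (⟪yv k, w k⟫ - 2 * ‖w k‖)

/-- The numerical conditions on an integer certificate. -/
def CheckCert (W : List (ℤ × ℤ × ℤ)) : Prop :=
  W.length = 8 ∧ (∑ k : Fin 8, (W.getD k 0).1 = 0) ∧ (∑ k : Fin 8, (W.getD k 0).2.1 = 0) ∧
  (∀ k : Fin 8, (W.getD k 0).1 ^ 2 + (W.getD k 0).2.1 ^ 2 ≤ (W.getD k 0).2.2 ^ 2 ∧
    0 ≤ (W.getD k 0).2.2) ∧
  0 ≤ 10000 * (∑ k : Fin 8, ((yc k).1 * (W.getD k 0).1 + (yc k).2.2.1 * (W.getD k 0).2.1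
      - 2 * (W.getD k 0).2.2) - 20000) +
    17320 * (∑ k : Fin 8, ((yc k).2.1 * (W.getD k 0).1 + (yc k).2.2.2 * (W.getD k 0).2.1)
      - 20000) ∧
  0 ≤ 10000 * (∑ k : Fin 8, ((yc k).1 * (W.getD k 0).1 + (yc k).2.2.1 * (W.getD k 0).2.1
      - 2 * (W.getD k 0).2.2) - 20000) +
    17321 * (∑ k : Fin 8, ((yc k).2.1 * (W.getD k 0).1 + (yc k).2.2.2 * (W.getD k 0).2.1)
      - 20000)

instance (W : List (ℤ × ℤ × ℤ)) : Decidable (CheckCert W) := by
  unfold CheckCert; infer_instance

theorem check_certs : ∀ W ∈ certs, CheckCert W := by decide +kernel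

lemma norm_le_of_sq {v : E} {c : ℝ} (hc : 0 ≤ c) (h : v 0 ^ 2 + v 1 ^ 2 ≤ c ^ 2) : ‖v‖ ≤ c := by
  rw [EuclideanSpace.norm_eq, Fin.sum_univ_two, Real.norm_eq_abs, Real.norm_eq_abs, sq_abs, sq_abs]
  exact (Real.sqrt_le_left hc).2 h |>.trans_eq' rfl

/-- The vectors of an integer certificate. -/
noncomputable def wv (W : List (ℤ × ℤ × ℤ)) (k : Fin 8) : E :=
  !₂[((W.getD k 0).1 : ℝ) / 10000, ((W.getD k 0).2.1 : ℝ) / 10000]

lemma sum_apply' (n : ℕ) (g : Fin n → E) (i : Fin 2) : (∑ k, g k) i = ∑ k, g k i := by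
  simp

lemma isCert_of_check {W : List (ℤ × ℤ × ℤ)} (h : CheckCert W) : IsCert (okW W) (wv W) := by
  obtain ⟨hlen, hx, hy, hn, h1, h2⟩ := h
  refine ⟨?_, ?_, ?_⟩
  · ext i
    rw [sum_apply']
    fin_cases i
    · have : ∑ k : Fin 8, ((W.getD k 0).1 : ℝ) = 0 := by exact_mod_cast hx
      simp only [wv]
      simpa [← Finset.sum_div] using this
    · have : ∑ k : Fin 8, ((W.getD k 0).2.1 : ℝ) = 0 := by exact_mod_cast hy
      simp only [wv]
      simpa [← Finset.sum_div] using this
  · intro f hf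
    rw [okW, msum_ofFn W 8 hlen f] at hf
    simp only [decide_eq_true_eq] at hf
    refine norm_le_of_sq zero_le_one ?_
    have e0 : (∑ k, if f k then wv W k else 0) 0 =
        ((∑ k : Fin 8, if f k then (W.getD k 0).1 else 0 : ℤ) : ℝ) / 10000 := by
      rw [sum_apply', Int.cast_sum, Finset.sum_div]
      refine Finset.sum_congr rfl fun k _ => ?_
      cases f k <;> simp [wv]
    have e1 : (∑ k, if f k then wv W k else 0) 1 =
        ((∑ k : Fin 8, if f k then (W.getD k 0).2.1 else 0 : ℤ) : ℝ) / 10000 := by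
      rw [sum_apply', Int.cast_sum, Finset.sum_div]
      refine Finset.sum_congr rfl fun k _ => ?_
      cases f k <;> simp [wv]
    rw [e0, e1]
    generalize (∑ k : Fin 8, if f k then (W.getD k 0).1 else 0) = a at hf ⊢
    generalize (∑ k : Fin 8, if f k then (W.getD k 0).2.1 else 0) = b at hf ⊢
    have hf' : (a : ℝ) * a + b * b ≤ 100000000 := by exact_mod_cast hf
    rw [one_pow, div_pow, div_pow, ← add_div, div_le_one (by norm_num)]
    nlinarith
  · set P : ℤ := ∑ k : Fin 8, ((yc k).1 * (W.getD k 0).1 + (yc k).2.2.1 * (W.getD k 0).2.1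
      - 2 * (W.getD k 0).2.2) with hP
    set Q : ℤ := ∑ k : Fin 8, ((yc k).2.1 * (W.getD k 0).1 + (yc k).2.2.2 * (W.getD k 0).2.1)
      with hQ
    have hs1 : (1.7320 : ℝ) ≤ √3 := Real.le_sqrt_of_sq_le (by norm_num)
    have hs2 : √3 ≤ (1.7321 : ℝ) := Real.sqrt_le_iff.2 ⟨by norm_num, by norm_num⟩
    have h1' : (0 : ℝ) ≤ 10000 * (P - 20000) + 17320 * (Q - 20000) := by exact_mod_cast h1
    have h2' : (0 : ℝ) ≤ 10000 * (P - 20000) + 17321 * (Q - 20000) := by exact_mod_cast h2
    have h3 : (0 : ℝ) ≤ (P - 20000) + √3 * (Q - 20000) := by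
      rcases le_total (0 : ℝ) (Q - 20000) with h | h <;> nlinarith
    have h4 : ∀ k : Fin 8, (((yc k).1 * (W.getD k 0).1 + (yc k).2.2.1 * (W.getD k 0).2.1
      - 2 * (W.getD k 0).2.2 : ℤ) : ℝ) / 10000 + √3 * (((yc k).2.1 * (W.getD k 0).1 +
        (yc k).2.2.2 * (W.getD k 0).2.1 : ℤ) : ℝ) / 10000 ≤ ⟪yv k, wv W k⟫ - 2 * ‖wv W k‖ := by
      intro k
      have h5 : ‖wv W k‖ ≤ ((W.getD k 0).2.2 : ℝ) / 10000 := by
        have hk := hn k
        have hk1 : ((W.getD k 0).1 : ℝ) ^ 2 + ((W.getD k 0).2.1 : ℝ) ^ 2 ≤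
          ((W.getD k 0).2.2 : ℝ) ^ 2 := by exact_mod_cast hk.1
        have hk2 : (0 : ℝ) ≤ ((W.getD k 0).2.2 : ℝ) := by exact_mod_cast hk.2
        refine norm_le_of_sq (by positivity) ?_
        simp only [wv]
        simp only [Matrix.cons_val_zero, Matrix.cons_val_one]
        rw [div_pow, div_pow, div_pow, ← add_div]
        exact div_le_div_of_nonneg_right hk1 (by norm_num)
      have h6 : ⟪yv k, wv W k⟫ = (((yc k).1 : ℝ) + (yc k).2.1 * √3) * (((W.getD k 0).1 : ℝ) / 10000)
          + (((yc k).2.2.1 : ℝ) + (yc k).2.2.2 * √3) * (((W.getD k 0).2.1 : ℝ) / 10000) := by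
        rw [PiLp.inner_apply, Fin.sum_univ_two]
        simp [yv, wv]
        ring
      rw [h6]
      push_cast
      linarith
    refine le_trans ?_ (Finset.sum_le_sum fun k _ => h4 k)
    rw [Finset.sum_add_distrib, ← Finset.sum_div, ← Finset.sum_div, ← Finset.mul_sum,
      ← Int.cast_sum, ← Int.cast_sum, ← hP, ← hQ]
    linarith

/-- The first exact calibration. -/
noncomputable def wA : Fin 8 → E :=
  ![0, !₂[1 / 2, √3 / 2], !₂[-1 / 2, √3 / 2], 0, 0, !₂[-1 / 2, -√3 / 2], !₂[1 / 2, -√3 / 2], 0]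

/-- The second exact calibration. -/
noncomputable def wB : Fin 8 → E :=
  ![!₂[√3 / 2, 1 / 2], 0, 0, !₂[-√3 / 2, 1 / 2], !₂[-√3 / 2, -1 / 2], 0, 0, !₂[√3 / 2, -1 / 2]]

lemma norm_le_one_of_sq {a b : ℝ} (h : a ^ 2 + b ^ 2 ≤ 1) : ‖(!₂[a, b] : E)‖ ≤ 1 :=
  norm_le_of_sq zero_le_one (by simpa using h)

lemma ofFn_eight (f : Fin 8 → Bool) :
    List.ofFn f = [f 0, f 1, f 2, f 3, f 4, f 5, f 6, f 7] := by
  simp [List.ofFn_succ]

lemma isCertA : IsCert okA wA := by
  have h3 : √3 ^ 2 = (3 : ℝ) := Real.sq_sqrt (by norm_num)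
  refine ⟨?_, ?_, ?_⟩
  · ext i
    rw [sum_apply', Fin.sum_univ_eight]
    fin_cases i <;> simp [wA] <;> ring
  · intro f hf
    refine norm_le_of_sq zero_le_one ?_
    rw [sum_apply', sum_apply', Fin.sum_univ_eight, Fin.sum_univ_eight]
    rw [ofFn_eight] at hf
    generalize f 0 = f0 at *
    generalize f 1 = f1 at *
    generalize f 2 = f2 at *
    generalize f 3 = f3 at *
    generalize f 4 = f4 at *
    generalize f 5 = f5 at *
    generalize f 6 = f6 at *
    generalize f 7 = f7 at *
    have e0 : ∀ i, (if f0 = true then wA 0 else 0) i = 0 := by intro i; cases f0 <;> simp [wA]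
    have e3 : ∀ i, (if f3 = true then wA 3 else 0) i = 0 := by intro i; cases f3 <;> simp [wA]
    have e4 : ∀ i, (if f4 = true then wA 4 else 0) i = 0 := by intro i; cases f4 <;> simp [wA]
    have e7 : ∀ i, (if f7 = true then wA 7 else 0) i = 0 := by intro i; cases f7 <;> simp [wA]
    simp only [e0, e3, e4, e7]
    cases f1 <;> cases f2 <;> cases f5 <;> cases f6 <;> simp [okA] at hf <;> simp [wA] <;>
      nlinarith
  · rw [Fin.sum_univ_eight]
    have n1 : ‖wA 1‖ ≤ 1 := norm_le_one_of_sq (by nlinarith)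
    have n2 : ‖wA 2‖ ≤ 1 := norm_le_one_of_sq (by nlinarith)
    have n5 : ‖wA 5‖ ≤ 1 := norm_le_one_of_sq (by nlinarith)
    have n6 : ‖wA 6‖ ≤ 1 := norm_le_one_of_sq (by nlinarith)
    have z0 : wA 0 = 0 := rfl
    have z3 : wA 3 = 0 := rfl
    have z4 : wA 4 = 0 := rfl
    have z7 : wA 7 = 0 := rfl
    rw [z0, z3, z4, z7]
    have i1 : ⟪yv 1, wA 1⟫ = 2 * (1 / 2) + (1 + √3) * (√3 / 2) := by
      rw [PiLp.inner_apply, Fin.sum_univ_two]; simp [yv, wA, yc]; ring
    have i2 : ⟪yv 2, wA 2⟫ = 2 * (1 / 2) + (1 + √3) * (√3 / 2) := by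
      rw [PiLp.inner_apply, Fin.sum_univ_two]; simp [yv, wA, yc]; ring
    have i5 : ⟪yv 5, wA 5⟫ = 2 * (1 / 2) + (1 + √3) * (√3 / 2) := by
      rw [PiLp.inner_apply, Fin.sum_univ_two]; simp [yv, wA, yc]; ring
    have i6 : ⟪yv 6, wA 6⟫ = 2 * (1 / 2) + (1 + √3) * (√3 / 2) := by
      rw [PiLp.inner_apply, Fin.sum_univ_two]; simp [yv, wA, yc]; ring
    rw [i1, i2, i5, i6]
    simp only [inner_zero_right, norm_zero]
    nlinarith

lemma isCertB : IsCert okB wB := by
  have h3 : √3 ^ 2 = (3 : ℝ) := Real.sq_sqrt (by norm_num)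
  refine ⟨?_, ?_, ?_⟩
  · ext i
    rw [sum_apply', Fin.sum_univ_eight]
    fin_cases i <;> simp [wB] <;> ring
  · intro f hf
    refine norm_le_of_sq zero_le_one ?_
    rw [sum_apply', sum_apply', Fin.sum_univ_eight, Fin.sum_univ_eight]
    rw [ofFn_eight] at hf
    generalize f 0 = f0 at *
    generalize f 1 = f1 at *
    generalize f 2 = f2 at *
    generalize f 3 = f3 at *
    generalize f 4 = f4 at *
    generalize f 5 = f5 at *
    generalize f 6 = f6 at *
    generalize f 7 = f7 at *
    have e1 : ∀ i, (if f1 = true then wB 1 else 0) i = 0 := by intro i; cases f1 <;> simp [wB]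
    have e2 : ∀ i, (if f2 = true then wB 2 else 0) i = 0 := by intro i; cases f2 <;> simp [wB]
    have e5 : ∀ i, (if f5 = true then wB 5 else 0) i = 0 := by intro i; cases f5 <;> simp [wB]
    have e6 : ∀ i, (if f6 = true then wB 6 else 0) i = 0 := by intro i; cases f6 <;> simp [wB]
    simp only [e1, e2, e5, e6]
    cases f0 <;> cases f3 <;> cases f4 <;> cases f7 <;> simp [okB] at hf <;> simp [wB] <;>
      nlinarith
  · rw [Fin.sum_univ_eight]
    have n0 : ‖wB 0‖ ≤ 1 := norm_le_one_of_sq (by nlinarith)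
    have n3 : ‖wB 3‖ ≤ 1 := norm_le_one_of_sq (by nlinarith)
    have n4 : ‖wB 4‖ ≤ 1 := norm_le_one_of_sq (by nlinarith)
    have n7 : ‖wB 7‖ ≤ 1 := norm_le_one_of_sq (by nlinarith)
    have z1 : wB 1 = 0 := rfl
    have z2 : wB 2 = 0 := rfl
    have z5 : wB 5 = 0 := rfl
    have z6 : wB 6 = 0 := rfl
    rw [z1, z2, z5, z6]
    have i0 : ⟪yv 0, wB 0⟫ = 2 * (1 / 2) + (1 + √3) * (√3 / 2) := by
      rw [PiLp.inner_apply, Fin.sum_univ_two]; simp [yv, wB, yc]; ring
    have i3 : ⟪yv 3, wB 3⟫ = 2 * (1 / 2) + (1 + √3) * (√3 / 2) := by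
      rw [PiLp.inner_apply, Fin.sum_univ_two]; simp [yv, wB, yc]; ring
    have i4 : ⟪yv 4, wB 4⟫ = 2 * (1 / 2) + (1 + √3) * (√3 / 2) := by
      rw [PiLp.inner_apply, Fin.sum_univ_two]; simp [yv, wB, yc]; ring
    have i7 : ⟪yv 7, wB 7⟫ = 2 * (1 / 2) + (1 + √3) * (√3 / 2) := by
      rw [PiLp.inner_apply, Fin.sum_univ_two]; simp [yv, wB, yc]; ring
    rw [i0, i3, i4, i7]
    simp only [inner_zero_right, norm_zero]
    nlinarith

lemma exists_isCert {ok : List Bool → Bool} (h : ok ∈ tests) : ∃ w, IsCert ok w := by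
  rw [tests, List.mem_cons, List.mem_cons, List.mem_map] at h
  rcases h with rfl | rfl | ⟨W, hW, rfl⟩
  · exact ⟨wA, isCertA⟩
  · exact ⟨wB, isCertB⟩
  · exact ⟨wv W, isCert_of_check (check_certs W hW)⟩

/-- A finite tree which touches the eight discs has length at least `2 (1 + √3)`. -/
theorem netOn_length_ge {A : Set E} {ℓ : ℝ} (hA : NetOn A ℓ) (x : Fin 8 → E)
    (hx : ∀ k, x k ∈ A) (hd : ∀ k, dist (yv k) (x k) ≤ 2) : 2 * (1 + √3) ≤ ℓ := by
  classical
  obtain ⟨m, z, par, h0, hp, hz, hℓ⟩ := hA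
  choose t ht htz using fun k => hz (x k) (hx k)
  let mask : ℕ → List Bool := fun j => List.ofFn fun k : Fin 8 => decide (Anc par j (t k))
  obtain ⟨ok, hok, hall⟩ := search_sound tests (allMasks 8) [] search_tests
    (mask '' {j | j ∈ Finset.Icc 1 m}) (by
      rintro S ⟨j, -, rfl⟩
      exact mem_allMasks 8 _) (by
      rintro S ⟨j, -, rfl⟩ T ⟨j', -, rfl⟩
      simp only [lam, Bool.or_eq_true, mask, disj_ofFn, sub_ofFn, decide_eq_true_eq]
      by_cases h : ∃ k, Anc par j (t k) ∧ Anc par j' (t k)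
      · obtain ⟨k, h1, h2⟩ := h
        rcases anc_laminar h1 h2 with h3 | h3
        · exact Or.inr fun k hk => h3.trans hk
        · exact Or.inl (Or.inr fun k hk => h3.trans hk)
      · push Not at h
        exact Or.inl (Or.inl fun k hk => h k hk.1 hk.2))
  obtain ⟨w, hw⟩ := exists_isCert hok
  have h1 := calib (z := z) h0 hp t ht w hw.sum_zero (fun j hj => by
    have := hw.norm_le _ (hall _ ⟨j, hj, rfl⟩)
    simpa using this)
  have h2 : ∀ k, ⟪yv k, w k⟫ - 2 * ‖w k‖ ≤ ⟪z (t k), w k⟫ := by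
    intro k
    have h3 : ⟪yv k - z (t k), w k⟫ ≤ 2 * ‖w k‖ := by
      refine (real_inner_le_norm _ _).trans ?_
      have := hd k
      rw [dist_eq_norm, ← htz k] at this
      exact mul_le_mul_of_nonneg_right this (norm_nonneg _)
    rw [inner_sub_left] at h3
    linarith
  exact (hw.value.trans (Finset.sum_le_sum fun k _ => h2 k)).trans (h1.trans hℓ)

/-- **Length bound.** A continuum within distance `2` of the eight points has length at least
`2 (1 + √3)`. -/
theorem length_ge {K : Set E} (hK : IsCompact K) (hKc : IsConnected K)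
    (h : ∀ k, yv k ∈ Metric.cthickening 2 K) :
    ENNReal.ofReal (2 * (1 + √3)) ≤ μH[1] K := by
  by_contra hlt
  push Not at hlt
  have hx : ∀ k, ∃ x ∈ K, dist (yv k) x ≤ 2 := by
    intro k
    have hk := h k
    rw [hK.cthickening_eq_biUnion_closedBall (by norm_num)] at hk
    obtain ⟨x, hxK, hx⟩ := Set.mem_iUnion₂.1 hk
    exact ⟨x, hxK, Metric.mem_closedBall.1 hx⟩
  choose x hxK hxd using hx
  obtain ⟨A, hxA, ℓ, hℓ, hnet⟩ := exists_netOn hK hKc hlt x hxK
  exact absurd (netOn_length_ge hnet x hxA hxd) (not_le.2 hℓ)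

end Pool.Agent.Lib.H81
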